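import Pool.Agent.J4H4.NG.Stm
import Pool.Agent.H401R2.Stir

/-!
# Project NG, pieces LOC and GAM: Stirling's formula on the line `Re s = 2`
-/

set_option autoImplicit false

namespace Pool.Agent.J4H3.NG

open Complex MeasureTheory Filter Topology Set
open Pool.Agent.J4H4.NG
open Pool.Agent.H401R2 (sA stirling)

/-! ## The modulus -/

lemma gamma_norm_sq {x : ℝ} (hx : 0 < x) :
    ‖Gamma (1 + I * (x : ℂ))‖ ^ 2 = Real.pi * x / Real.sinh (Real.pi * x) := by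
  have h0 : (I * (x : ℂ)) ≠ 0 := mul_ne_zero I_ne_zero (ofReal_ne_zero.2 hx.ne')
  have h1 : Gamma (1 + I * (x : ℂ)) = I * x * Gamma (I * x) := by
    rw [add_comm, Gamma_add_one _ h0]
  have h2 : (starRingEnd ℂ) (Gamma (1 + I * (x : ℂ))) = Gamma (1 - I * x) := by
    rw [← Gamma_conj]
    congr 1
    simp [sub_eq_add_neg]
  have h3 : ((‖Gamma (1 + I * (x : ℂ))‖ ^ 2 : ℝ) : ℂ) =
      Gamma (1 + I * x) * (starRingEnd ℂ) (Gamma (1 + I * (x : ℂ))) := by
    rw [mul_conj, normSq_eq_norm_sq]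
  have h4 : Gamma (I * (x : ℂ)) * Gamma (1 - I * x) = Real.pi / sin (Real.pi * (I * x)) := Gamma_mul_Gamma_one_sub _
  have h5 : sin ((Real.pi : ℂ) * (I * x)) = ((Real.sinh (Real.pi * x) : ℝ) : ℂ) * I := by
    rw [show (Real.pi : ℂ) * (I * x) = ((Real.pi * x : ℝ) : ℂ) * I by push_cast; ring, sin_mul_I, ofReal_sinh]
  have hs : 0 < Real.sinh (Real.pi * x) := Real.sinh_pos_iff.2 (by positivity)
  have hs' : ((Real.sinh (Real.pi * x) : ℝ) : ℂ) ≠ 0 := ofReal_ne_zero.2 hs.ne'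
  have h6 : ((‖Gamma (1 + I * (x : ℂ))‖ ^ 2 : ℝ) : ℂ) = ((Real.pi * x / Real.sinh (Real.pi * x) : ℝ) : ℂ) := by
    rw [h3, h2, h1, mul_assoc, h4, h5]
    rw [ofReal_div, ofReal_mul]
    field_simp
  exact_mod_cast h6

lemma gamma_up (x : ℝ) : ‖Gamma (1 + I * (x : ℂ))‖ ^ 2 ≤ (1 + 2 * Real.pi * |x|) * Real.exp (-(Real.pi * |x|)) := by
  have key : ∀ y : ℝ, 0 < y → ‖Gamma (1 + I * (y : ℂ))‖ ^ 2 ≤ (1 + 2 * Real.pi * y) * Real.exp (-(Real.pi * y)) := by
    intro y hy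
    have hs : 0 < Real.sinh (Real.pi * y) := Real.sinh_pos_iff.2 (by positivity)
    rw [gamma_norm_sq hy, div_le_iff₀ hs, Real.sinh_eq]
    have e1 : Real.exp (-(Real.pi * y)) * Real.exp (Real.pi * y) = 1 := by
      rw [← Real.exp_add]; simp
    have e2 : Real.exp (-(Real.pi * y)) * Real.exp (-(Real.pi * y)) = Real.exp (-(2 * Real.pi * y)) := by
      rw [← Real.exp_add]; congr 1; ring
    have e3 : (1 + 2 * Real.pi * y) * Real.exp (-(2 * Real.pi * y)) ≤ 1 := by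
      have := Real.add_one_le_exp (2 * Real.pi * y)
      rw [Real.exp_neg]
      rw [← div_eq_mul_inv, div_le_one (Real.exp_pos _)]
      linarith
    have e4 : (1 + 2 * Real.pi * y) * Real.exp (-(Real.pi * y)) *
        ((Real.exp (Real.pi * y) - Real.exp (-(Real.pi * y))) / 2) =
        (1 + 2 * Real.pi * y) * (Real.exp (-(Real.pi * y)) * Real.exp (Real.pi * y)) / 2 -
          (1 + 2 * Real.pi * y) * (Real.exp (-(Real.pi * y)) * Real.exp (-(Real.pi * y))) / 2 := by ring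
    rw [e4, e1, e2]
    linarith
  rcases lt_trichotomy x 0 with h | h | h
  · have e : Gamma (1 + I * (x : ℂ)) = (starRingEnd ℂ) (Gamma (1 + I * ((-x : ℝ) : ℂ))) := by
      rw [← Gamma_conj]
      congr 1
      simp
    rw [e, norm_conj, abs_of_neg h]
    exact key (-x) (by linarith)
  · rw [h]
    simp
  · rw [abs_of_pos h]
    exact key x h

lemma gamma_low {x : ℝ} (hx : 0 < x) : 2 * Real.pi * x * Real.exp (-(Real.pi * x)) ≤ ‖Gamma (1 + I * (x : ℂ))‖ ^ 2 := by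
  have hs : 0 < Real.sinh (Real.pi * x) := Real.sinh_pos_iff.2 (by positivity)
  rw [gamma_norm_sq hx, le_div_iff₀ hs, Real.sinh_eq]
  have e1 : Real.exp (-(Real.pi * x)) * Real.exp (Real.pi * x) = 1 := by
    rw [← Real.exp_add]; simp
  have e4 : 2 * Real.pi * x * Real.exp (-(Real.pi * x)) *
      ((Real.exp (Real.pi * x) - Real.exp (-(Real.pi * x))) / 2) =
      Real.pi * x * (Real.exp (-(Real.pi * x)) * Real.exp (Real.pi * x)) -
        Real.pi * x * (Real.exp (-(Real.pi * x)) * Real.exp (-(Real.pi * x))) := by ring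
  rw [e4, e1]
  have : 0 ≤ Real.pi * x * (Real.exp (-(Real.pi * x)) * Real.exp (-(Real.pi * x))) := by positivity
  linarith

/-- the Gamma factor on the line `Re s = 2` -/
lemma gam_eq (y : ℝ) : gam (2 + I * (y : ℂ)) =
    (2 + I * y) * (1 + I * y) / 2 * ((Real.pi : ℂ) ^ (-(1 + I * ((y / 2 : ℝ) : ℂ))) * Gamma (1 + I * ((y / 2 : ℝ) : ℂ))) := by
  unfold gam
  rw [Gammaℝ_def]
  have e1 : -(2 + I * (y : ℂ)) / 2 = -(1 + I * ((y / 2 : ℝ) : ℂ)) := by push_cast; ring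
  have e2 : (2 + I * (y : ℂ)) / 2 = 1 + I * ((y / 2 : ℝ) : ℂ) := by push_cast; ring
  have e3 : (2 + I * (y : ℂ)) - 1 = 1 + I * y := by ring
  rw [e1, e2, e3]

lemma norm_pi_pow (x : ℝ) : ‖(Real.pi : ℂ) ^ (-(1 + I * (x : ℂ)))‖ = Real.pi⁻¹ := by
  rw [norm_cpow_eq_rpow_re_of_pos Real.pi_pos]
  simp [Real.rpow_neg_one]

lemma gam_ne (y : ℝ) : gam (2 + I * (y : ℂ)) ≠ 0 := by
  unfold gam
  have h1 : (2 + I * (y : ℂ)) ≠ 0 := by
    intro h
    have := congrArg Complex.re h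
    simp at this
  have h2 : (2 + I * (y : ℂ)) - 1 ≠ 0 := by
    intro h
    have := congrArg Complex.re h
    simp at this
    norm_num at this
  have h3 : Gammaℝ (2 + I * (y : ℂ)) ≠ 0 := Gammaℝ_ne_zero_of_re_pos (by simp)
  exact mul_ne_zero (div_ne_zero (mul_ne_zero h1 h2) two_ne_zero) h3

lemma norm_lin {c : ℝ} (hc : 1 ≤ c) (v u : ℝ) : ‖(c : ℂ) + I * ((v + u : ℝ) : ℂ)‖ ≤ (1 + |u|) * ‖(c : ℂ) + I * (v : ℂ)‖ := by
  have e : (c : ℂ) + I * ((v + u : ℝ) : ℂ) = ((c : ℂ) + I * v) + I * u := by push_cast; ring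
  have h1 : 1 ≤ ‖(c : ℂ) + I * (v : ℂ)‖ := by
    refine le_trans ?_ (abs_re_le_norm _)
    simp
    exact hc.trans (le_abs_self c)
  rw [e]
  refine (norm_add_le _ _).trans ?_
  have h2 : ‖I * (u : ℂ)‖ = |u| := by simp
  rw [h2]
  nlinarith [abs_nonneg u]

/-- the modulus of the ratio -/
lemma ratio_norm {v : ℝ} (hv : 1 ≤ v) (u : ℝ) : ‖gam (2 + I * ((v + u : ℝ) : ℂ))‖ ≤
    2 * (1 + |u|) ^ 3 * Real.exp (Real.pi * |u| / 4) * ‖gam (2 + I * (v : ℂ))‖ := by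
  have hpi := Real.pi_gt_three
  rw [gam_eq, gam_eq, norm_mul, norm_mul, norm_mul, norm_mul, norm_pi_pow, norm_pi_pow, norm_div, norm_div, norm_mul, norm_mul]
  have hA : ‖(2 : ℂ) + I * ((v + u : ℝ) : ℂ)‖ ≤ (1 + |u|) * ‖(2 : ℂ) + I * (v : ℂ)‖ := by
    have := norm_lin (c := 2) (by norm_num) v u
    simpa using this
  have hB : ‖(1 : ℂ) + I * ((v + u : ℝ) : ℂ)‖ ≤ (1 + |u|) * ‖(1 : ℂ) + I * (v : ℂ)‖ := by
    have := norm_lin (c := 1) le_rfl v u
    simpa using this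
  have hG : ‖Gamma (1 + I * (((v + u) / 2 : ℝ) : ℂ))‖ ≤ 2 * (1 + |u|) * Real.exp (Real.pi * |u| / 4) *
      ‖Gamma (1 + I * ((v / 2 : ℝ) : ℂ))‖ := by
    have h1 := gamma_up ((v + u) / 2)
    have h2 := gamma_low (x := v / 2) (by linarith)
    have h3 : (1 + 2 * Real.pi * |(v + u) / 2|) * Real.exp (-(Real.pi * |(v + u) / 2|)) ≤
        (2 * (1 + |u|) * Real.exp (Real.pi * |u| / 4)) ^ 2 * (2 * Real.pi * (v / 2) * Real.exp (-(Real.pi * (v / 2)))) := by
      have a1 : |(v + u) / 2| = |v + u| / 2 := by rw [abs_div, abs_two]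
      have a2 : v - |v + u| ≤ |u| := by
        have := le_abs_self (v + u)
        have := neg_abs_le u
        linarith
      have a3 : |v + u| ≤ v + |u| := by
        refine (abs_add_le v u).trans ?_
        rw [abs_of_pos (by linarith)]
      rw [a1]
      have e1 : Real.exp (-(Real.pi * (|v + u| / 2))) ≤ Real.exp (Real.pi * |u| / 2) * Real.exp (-(Real.pi * (v / 2))) := by
        rw [← Real.exp_add]
        apply Real.exp_le_exp.2
        nlinarith
      have e2 : (2 * (1 + |u|) * Real.exp (Real.pi * |u| / 4)) ^ 2 = 4 * (1 + |u|) ^ 2 * Real.exp (Real.pi * |u| / 2) := by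
        rw [mul_pow, mul_pow, ← Real.exp_nat_mul]
        congr 1
        · norm_num
        · congr 1
          push_cast
          ring
      have e3 : 1 + 2 * Real.pi * (|v + u| / 2) ≤ 4 * (1 + |u|) ^ 2 * (2 * Real.pi * (v / 2)) := by
        have b1 : 1 + 2 * Real.pi * (|v + u| / 2) ≤ 1 + Real.pi * (v + |u|) := by nlinarith
        have b2 : 1 + Real.pi * (v + |u|) ≤ 2 * (1 + |u|) * (Real.pi * v) := by
          have : |u| ≤ |u| * v := by nlinarith [abs_nonneg u]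
          have : Real.pi * |u| ≤ Real.pi * (|u| * v) := by nlinarith
          have : 1 ≤ Real.pi * v := by nlinarith
          have : 0 ≤ Real.pi * (|u| * v) := by positivity
          nlinarith
        have b3 : 2 * (1 + |u|) * (Real.pi * v) ≤ 4 * (1 + |u|) ^ 2 * (2 * Real.pi * (v / 2)) := by
          have c1 : 0 ≤ Real.pi * v := by positivity
          have c2 : 2 * (1 + |u|) ≤ 4 * (1 + |u|) ^ 2 := by nlinarith [abs_nonneg u]
          calc 2 * (1 + |u|) * (Real.pi * v) ≤ 4 * (1 + |u|) ^ 2 * (Real.pi * v) := mul_le_mul_of_nonneg_right c2 c1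
            _ = _ := by ring
        exact b1.trans (b2.trans b3)
      calc _ ≤ (4 * (1 + |u|) ^ 2 * (2 * Real.pi * (v / 2))) *
            (Real.exp (Real.pi * |u| / 2) * Real.exp (-(Real.pi * (v / 2)))) := by
            apply mul_le_mul e3 e1 (Real.exp_pos _).le (by positivity)
        _ = _ := by rw [e2]; ring
    have h4 : ‖Gamma (1 + I * (((v + u) / 2 : ℝ) : ℂ))‖ ^ 2 ≤ (2 * (1 + |u|) * Real.exp (Real.pi * |u| / 4) *
        ‖Gamma (1 + I * ((v / 2 : ℝ) : ℂ))‖) ^ 2 := by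
      rw [mul_pow _ ‖_‖ 2]
      exact h1.trans (h3.trans (mul_le_mul_of_nonneg_left h2 (sq_nonneg _)))
    exact le_of_sq_le_sq h4 (by positivity)
  have p1 : 0 < Real.pi⁻¹ := by positivity
  calc _ ≤ ((1 + |u|) * ‖(2 : ℂ) + I * (v : ℂ)‖) * ((1 + |u|) * ‖(1 : ℂ) + I * (v : ℂ)‖) / ‖(2 : ℂ)‖ *
        (Real.pi⁻¹ * (2 * (1 + |u|) * Real.exp (Real.pi * |u| / 4) * ‖Gamma (1 + I * ((v / 2 : ℝ) : ℂ))‖)) := by
        gcongr
    _ = _ := by ring

/-! ## The local form -/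

lemma mul_close {P Q : ℂ} {p q X : ℝ} (hX0 : 0 ≤ X) (hX : X ≤ 4) (hp : 0 ≤ p) (hq : 0 ≤ q)
    (hP : ‖P - 1‖ ≤ p * X) (hQ : ‖Q - 1‖ ≤ q * X) : ‖P * Q - 1‖ ≤ (p * (1 + 4 * q) + q) * X := by
  have e : P * Q - 1 = (P - 1) * Q + (Q - 1) := by ring
  have h1 : ‖Q‖ ≤ 1 + 4 * q := by
    have : ‖Q‖ ≤ ‖Q - 1‖ + ‖(1 : ℂ)‖ := by
      have := norm_add_le (Q - 1) 1
      simpa using this
    rw [norm_one] at this
    nlinarith
  rw [e]
  refine (norm_add_le _ _).trans ?_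
  rw [norm_mul]
  have h2 : ‖P - 1‖ * ‖Q‖ ≤ (p * X) * (1 + 4 * q) := mul_le_mul hP h1 (norm_nonneg _) (by positivity)
  calc _ ≤ (p * X) * (1 + 4 * q) + q * X := add_le_add h2 hQ
    _ = _ := by ring

/-- `Γ(z')/Γ(z)` and the main term -/
lemma gamma_ratio (z z' : ℂ) (hz : 0 < z.re) : Gamma z' =
    Gamma z * (sA z' / sA z) * cexp (((z' - 1 / 2) * log z' - z') - ((z - 1 / 2) * log z - z)) := by
  unfold sA
  have h1 := Gamma_ne_zero_of_re_pos hz
  have h2 : cexp (-((z - 1 / 2) * log z - z)) ≠ 0 := exp_ne_zero _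
  have e1 : Gamma z * (Gamma z' * cexp (-((z' - 1 / 2) * log z' - z')) / (Gamma z * cexp (-((z - 1 / 2) * log z - z)))) *
      cexp (((z' - 1 / 2) * log z' - z') - ((z - 1 / 2) * log z - z)) = Gamma z' *
      (cexp (-((z' - 1 / 2) * log z' - z')) * cexp (((z' - 1 / 2) * log z' - z') - ((z - 1 / 2) * log z - z)) /
        cexp (-((z - 1 / 2) * log z - z))) := by
    field_simp
  rw [e1, ← exp_add]
  have e2 : -((z' - 1 / 2) * log z' - z') + (((z' - 1 / 2) * log z' - z') - ((z - 1 / 2) * log z - z)) =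
      -((z - 1 / 2) * log z - z) := by ring
  rw [e2, div_self h2, mul_one]

lemma sA_ratio {z z' : ℂ} {v : ℝ} (hv : 4 ≤ v) (hz : 0 < z.re) (hz' : 0 < z'.re) (h1 : v / 4 ≤ z.im) (h2 : v / 4 ≤ z'.im) :
    ‖sA z' / sA z - 1‖ ≤ 8 / v := by
  have hs : ((√(2 * Real.pi) : ℝ) : ℂ) ≠ 0 := by
    have : √(2 * Real.pi) ≠ 0 := by positivity
    exact_mod_cast this
  have b : ∀ w : ℂ, 0 < w.re → v / 4 ≤ w.im → ‖sA w / ((√(2 * Real.pi) : ℝ) : ℂ) - 1‖ ≤ 2 / v := by
    intro w hw hw2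
    refine (stirling hw (by linarith)).trans ?_
    have hpi := Real.pi_le_four
    rw [div_le_div_iff₀ (by linarith) (by linarith)]
    nlinarith
  have b1 := b z hz h1
  have b2 := b z' hz' h2
  set A := sA z / ((√(2 * Real.pi) : ℝ) : ℂ) with hA
  set B := sA z' / ((√(2 * Real.pi) : ℝ) : ℂ) with hB
  have hv2 : 2 / v ≤ 1 / 2 := by
    rw [div_le_div_iff₀ (by linarith) (by norm_num)]
    linarith
  have hA2 : 1 / 2 ≤ ‖A‖ := by
    have h3 : ‖(1 : ℂ)‖ ≤ ‖A‖ + ‖A - 1‖ := by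
      have := norm_sub_le A (A - 1)
      simpa using this
    rw [norm_one] at h3
    linarith
  have hA0 : A ≠ 0 := by
    intro h
    rw [h, norm_zero] at hA2
    norm_num at hA2
  have e : sA z' / sA z = B / A := by
    rw [hA, hB]
    field_simp
  rw [e]
  have e2 : B / A - 1 = ((B - 1) - (A - 1)) / A := by
    field_simp
    ring
  rw [e2, norm_div, div_le_iff₀ (by linarith)]
  refine (norm_sub_le _ _).trans ?_
  have h4 : 4 / v ≤ 8 / v * ‖A‖ := by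
    have : 8 / v * (1 / 2) ≤ 8 / v * ‖A‖ := mul_le_mul_of_nonneg_left hA2 (by positivity)
    calc 4 / v = 8 / v * (1 / 2) := by ring
      _ ≤ _ := this
  have h5 : 2 / v + 2 / v = 4 / v := by ring
  linarith

/-- the logarithm in the half plane `Im ≥ v/4` -/
lemma log_close {v : ℝ} (hv : 4 ≤ v) {ζ ζ' : ℂ} (h1 : v / 4 ≤ ζ.im) (h2 : v / 4 ≤ ζ'.im) :
    ‖log ζ' - log ζ‖ ≤ 4 / v * ‖ζ' - ζ‖ := by
  have hconv : Convex ℝ {w : ℂ | v / 4 ≤ w.im} := convex_halfSpace_im_ge _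
  refine hconv.norm_image_sub_le_of_norm_hasDerivWithin_le (f := fun w => log w) (f' := fun w => w⁻¹) ?_ ?_ h1 h2
  · intro w hw
    have : w ∈ slitPlane := Or.inr (by have : v / 4 ≤ w.im := hw; linarith)
    exact (hasDerivAt_log this).hasDerivWithinAt
  · intro w hw
    have hw2 : v / 4 ≤ ‖w‖ := by
      have h3 : v / 4 ≤ w.im := hw
      exact h3.trans ((le_abs_self _).trans (abs_im_le_norm w))
    rw [norm_inv]
    have e : 4 / v = (v / 4)⁻¹ := by
      rw [inv_div]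
    rw [e]
    exact inv_anti₀ (by linarith) hw2

lemma h_close {v u : ℝ} (hv : 4 ≤ v) (hu : |u| ≤ v / 2) :
    ‖((((1 + I * (((v + u) / 2 : ℝ) : ℂ)) - 1 / 2) * log (1 + I * (((v + u) / 2 : ℝ) : ℂ)) - (1 + I * (((v + u) / 2 : ℝ) : ℂ))) -
      (((1 + I * ((v / 2 : ℝ) : ℂ)) - 1 / 2) * log (1 + I * ((v / 2 : ℝ) : ℂ)) - (1 + I * ((v / 2 : ℝ) : ℂ)))) -
      I * (u / 2) * log (I * ((v / 2 : ℝ) : ℂ))‖ ≤ 3 * (1 + |u|) ^ 2 / v := by
  set z : ℂ := 1 + I * ((v / 2 : ℝ) : ℂ) with hz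
  set z' : ℂ := 1 + I * (((v + u) / 2 : ℝ) : ℂ) with hz'
  set L : ℂ := log (I * ((v / 2 : ℝ) : ℂ)) with hL
  have hu1 := neg_abs_le u
  have hu2 := le_abs_self u
  set s : Set ℂ := {w : ℂ | v / 4 ≤ w.im} ∩ Metric.closedBall z (|u| / 2) with hs
  have hconv : Convex ℝ s := (convex_halfSpace_im_ge _).inter (convex_closedBall _ _)
  have zim : z.im = v / 2 := by rw [hz]; simp
  have zim' : z'.im = (v + u) / 2 := by rw [hz']; simp
  have zd : z' - z = I * (u / 2) := by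
    rw [hz, hz']; push_cast; ring
  have hzs : z ∈ s := ⟨by show v / 4 ≤ z.im; rw [zim]; linarith, Metric.mem_closedBall_self (by positivity)⟩
  have hzs' : z' ∈ s := by
    refine ⟨by show v / 4 ≤ z'.im; rw [zim']; linarith, ?_⟩
    rw [Metric.mem_closedBall, dist_eq_norm, zd]
    simp
  have key := hconv.norm_image_sub_le_of_norm_hasDerivWithin_le
    (f := fun w => ((w - 1 / 2) * log w - w) - w * L) (f' := fun w => (log w - L) - 1 / (2 * w)) (C := 6 * (1 + |u|) / v)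
    (x := z) (y := z') ?_ ?_ hzs hzs'
  · have e : (fun w : ℂ => ((w - 1 / 2) * log w - w) - w * L) z' - (fun w : ℂ => ((w - 1 / 2) * log w - w) - w * L) z =
        (((z' - 1 / 2) * log z' - z') - ((z - 1 / 2) * log z - z)) - I * (u / 2) * L := by
      rw [← zd]
      ring
    rw [e] at key
    refine key.trans ?_
    rw [zd]
    have e3 : ‖I * ((u : ℂ) / 2)‖ = |u| / 2 := by simp
    rw [e3]
    have e4 : 6 * (1 + |u|) / v * (|u| / 2) = 3 * (1 + |u|) * |u| / v := by ring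
    rw [e4]
    apply div_le_div_of_nonneg_right _ (by linarith)
    nlinarith [abs_nonneg u]
  · intro w hw
    have hw1 : v / 4 ≤ w.im := hw.1
    have hsl : w ∈ slitPlane := Or.inr (by linarith)
    have hw0 : w ≠ 0 := slitPlane_ne_zero hsl
    have d1 : HasDerivAt (fun w : ℂ => w - 1 / 2) 1 w := (hasDerivAt_id w).sub_const _
    have d2 := (d1.mul (hasDerivAt_log hsl)).sub (hasDerivAt_id w)
    have d3 := d2.sub ((hasDerivAt_id w).mul_const L)
    have d4 : HasDerivAt (fun w : ℂ => ((w - 1 / 2) * log w - w) - w * L) ((log w - L) - 1 / (2 * w)) w := by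
      refine HasDerivAt.congr_deriv (d3.congr_of_eventuallyEq (Eventually.of_forall fun x => ?_)) ?_
      · simp
      · field_simp
        ring
    exact d4.hasDerivWithinAt
  · intro w hw
    have hw1 : v / 4 ≤ w.im := hw.1
    have hw2 : ‖w - z‖ ≤ |u| / 2 := by
      have := hw.2
      rwa [Metric.mem_closedBall, dist_eq_norm] at this
    have hv4 : v / 4 ≤ ‖w‖ := hw1.trans ((le_abs_self _).trans (abs_im_le_norm w))
    have b1 : ‖log w - L‖ ≤ 4 / v * (|u| / 2 + 1) := by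
      refine (log_close hv (ζ := I * ((v / 2 : ℝ) : ℂ)) (ζ' := w) ?_ hw1).trans ?_
      · have : (I * ((v / 2 : ℝ) : ℂ)).im = v / 2 := by simp
        rw [this]
        linarith
      · apply mul_le_mul_of_nonneg_left _ (by positivity)
        have e : w - I * ((v / 2 : ℝ) : ℂ) = (w - z) + 1 := by rw [hz]; ring
        rw [e]
        refine (norm_add_le _ _).trans ?_
        rw [norm_one]
        linarith
    have b2 : ‖1 / (2 * w)‖ ≤ 2 / v := by
      rw [norm_div, norm_one, norm_mul]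
      have : ‖(2 : ℂ)‖ = 2 := by simp
      rw [this, div_le_div_iff₀ (by linarith) (by linarith)]
      linarith
    refine (norm_sub_le _ _).trans ?_
    calc _ ≤ 4 / v * (|u| / 2 + 1) + 2 / v := add_le_add b1 b2
      _ = (6 + 2 * |u|) / v := by ring
      _ ≤ 6 * (1 + |u|) / v := by
        apply div_le_div_of_nonneg_right _ (by linarith)
        nlinarith [abs_nonneg u]

lemma exp_close {e : ℂ} {X : ℝ} (hX : X ≤ 4) (h : ‖e‖ ≤ 3 * X) : ‖cexp e - 1‖ ≤ 3 * Real.exp 12 * X := by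
  have h1 := norm_exp_sub_sum_le_norm_mul_exp e 1
  simp only [Finset.range_one, Finset.sum_singleton, pow_zero, Nat.factorial_zero, Nat.cast_one, div_one, pow_one] at h1
  refine h1.trans ?_
  have h2 : Real.exp ‖e‖ ≤ Real.exp 12 := Real.exp_le_exp.2 (by linarith)
  calc ‖e‖ * Real.exp ‖e‖ ≤ (3 * X) * Real.exp 12 := mul_le_mul h h2 (Real.exp_pos _).le (by linarith [norm_nonneg e])
    _ = _ := by ring

lemma log_I_mul {r : ℝ} (hr : 0 < r) : log (I * (r : ℂ)) = (Real.log r : ℂ) + Real.pi / 2 * I := by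
  rw [log_mul_ofReal r hr I I_ne_zero, log_I]

/-- the ratio as a product -/
lemma gam_ratio {v u : ℝ} (hv : 4 ≤ v) (hu : |u| ≤ v / 2) : gam (2 + I * ((v + u : ℝ) : ℂ)) / gam (2 + I * (v : ℂ)) =
    cexp (I * u * ell v) * (((1 + I * u / (2 + I * v)) * (1 + I * u / (1 + I * v))) *
      (sA (1 + I * (((v + u) / 2 : ℝ) : ℂ)) / sA (1 + I * ((v / 2 : ℝ) : ℂ)) *
      cexp (((((1 + I * (((v + u) / 2 : ℝ) : ℂ)) - 1 / 2) * log (1 + I * (((v + u) / 2 : ℝ) : ℂ)) - (1 + I * (((v + u) / 2 : ℝ) : ℂ))) -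
      (((1 + I * ((v / 2 : ℝ) : ℂ)) - 1 / 2) * log (1 + I * ((v / 2 : ℝ) : ℂ)) - (1 + I * ((v / 2 : ℝ) : ℂ)))) -
      I * (u / 2) * log (I * ((v / 2 : ℝ) : ℂ))))) := by
  have hpi : (Real.pi : ℂ) ≠ 0 := ofReal_ne_zero.2 Real.pi_ne_zero
  have hg := gam_ne v
  rw [div_eq_iff hg, gam_eq, gam_eq]
  have hz : 0 < (1 + I * ((v / 2 : ℝ) : ℂ)).re := by simp
  rw [gamma_ratio (1 + I * ((v / 2 : ℝ) : ℂ)) (1 + I * (((v + u) / 2 : ℝ) : ℂ)) hz]
  have h1 : (2 + I * (v : ℂ)) ≠ 0 := by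
    intro h
    have := congrArg Complex.re h
    simp at this
  have h2 : (1 + I * (v : ℂ)) ≠ 0 := by
    intro h
    have := congrArg Complex.re h
    simp at this
  have p1 : (Real.pi : ℂ) ^ (-(1 + I * (((v + u) / 2 : ℝ) : ℂ))) =
      (Real.pi : ℂ) ^ (-(1 + I * ((v / 2 : ℝ) : ℂ))) * cexp (-(I * (u / 2) * Real.log Real.pi)) := by
    rw [cpow_def_of_ne_zero hpi, cpow_def_of_ne_zero hpi, ← exp_add, ← ofReal_log Real.pi_pos.le]
    congr 1
    push_cast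
    ring
  have p2 : cexp (-(I * (u / 2) * Real.log Real.pi)) *
      cexp (((((1 + I * (((v + u) / 2 : ℝ) : ℂ)) - 1 / 2) * log (1 + I * (((v + u) / 2 : ℝ) : ℂ)) - (1 + I * (((v + u) / 2 : ℝ) : ℂ))) -
      (((1 + I * ((v / 2 : ℝ) : ℂ)) - 1 / 2) * log (1 + I * ((v / 2 : ℝ) : ℂ)) - (1 + I * ((v / 2 : ℝ) : ℂ))))) =
      cexp (I * u * ell v) *
      cexp (((((1 + I * (((v + u) / 2 : ℝ) : ℂ)) - 1 / 2) * log (1 + I * (((v + u) / 2 : ℝ) : ℂ)) - (1 + I * (((v + u) / 2 : ℝ) : ℂ))) -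
      (((1 + I * ((v / 2 : ℝ) : ℂ)) - 1 / 2) * log (1 + I * ((v / 2 : ℝ) : ℂ)) - (1 + I * ((v / 2 : ℝ) : ℂ)))) -
      I * (u / 2) * log (I * ((v / 2 : ℝ) : ℂ))) := by
    rw [← exp_add, ← exp_add]
    congr 1
    rw [log_I_mul (show 0 < v / 2 by linarith)]
    unfold ell
    have e1 : v / (2 * Real.pi) = (v / 2) / Real.pi := by
      rw [div_div]
    rw [e1, Real.log_div (by positivity) Real.pi_ne_zero]
    push_cast
    ring_nf
  have e2 : (2 + I * ((v + u : ℝ) : ℂ)) = (2 + I * v) * (1 + I * u / (2 + I * v)) := by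
    field_simp
    push_cast
    ring
  have e3 : (1 + I * ((v + u : ℝ) : ℂ)) = (1 + I * v) * (1 + I * u / (1 + I * v)) := by
    field_simp
    push_cast
    ring
  rw [p1, e2, e3]
  generalize (1 + I * (u : ℂ) / (2 + I * v)) = A
  generalize (1 + I * (u : ℂ) / (1 + I * v)) = B
  generalize sA (1 + I * (((v + u) / 2 : ℝ) : ℂ)) / sA (1 + I * ((v / 2 : ℝ) : ℂ)) = S
  generalize hE1 : cexp (((((1 + I * (((v + u) / 2 : ℝ) : ℂ)) - 1 / 2) * log (1 + I * (((v + u) / 2 : ℝ) : ℂ)) - (1 + I * (((v + u) / 2 : ℝ) : ℂ))) -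
      (((1 + I * ((v / 2 : ℝ) : ℂ)) - 1 / 2) * log (1 + I * ((v / 2 : ℝ) : ℂ)) - (1 + I * ((v / 2 : ℝ) : ℂ))))) = E1 at p2 ⊢
  generalize hE2 : cexp (((((1 + I * (((v + u) / 2 : ℝ) : ℂ)) - 1 / 2) * log (1 + I * (((v + u) / 2 : ℝ) : ℂ)) - (1 + I * (((v + u) / 2 : ℝ) : ℂ))) -
      (((1 + I * ((v / 2 : ℝ) : ℂ)) - 1 / 2) * log (1 + I * ((v / 2 : ℝ) : ℂ)) - (1 + I * ((v / 2 : ℝ) : ℂ)))) -
      I * (u / 2) * log (I * ((v / 2 : ℝ) : ℂ))) = E2 at p2 ⊢
  generalize (Real.pi : ℂ) ^ (-(1 + I * ((v / 2 : ℝ) : ℂ))) = Pp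
  generalize Gamma (1 + I * ((v / 2 : ℝ) : ℂ)) = G
  calc (2 + I * (v : ℂ)) * A * ((1 + I * v) * B) / 2 * (Pp * cexp (-(I * (u / 2) * Real.log Real.pi)) * (G * S * E1)) =
        (2 + I * (v : ℂ)) * A * ((1 + I * v) * B) / 2 * Pp * G * S * (cexp (-(I * (u / 2) * Real.log Real.pi)) * E1) := by ring
    _ = _ := by rw [p2]; ring

theorem t_LOC : S_LOC := by
  obtain ⟨K, hK⟩ : ∃ K : ℝ, K = ((1 * (1 + 4 * 1) + 1) * (1 + 4 * (8 * (1 + 4 * (3 * Real.exp 12)) + 3 * Real.exp 12)) +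
      (8 * (1 + 4 * (3 * Real.exp 12)) + 3 * Real.exp 12)) := ⟨_, rfl⟩
  have hexp : 0 < Real.exp 12 := Real.exp_pos _
  have hK0 : 0 ≤ K := by rw [hK]; positivity
  refine ⟨K + 3, 4, by linarith, by norm_num, fun v hv => ⟨gam_ne v, fun u => ?_⟩⟩
  have hv0 : 0 < v := by linarith
  have hau := abs_nonneg u
  have hexpu : 0 < Real.exp (Real.pi * |u| / 4) := Real.exp_pos _
  have hmain : ‖cexp (I * u * ell v)‖ ≤ Real.exp (Real.pi * |u| / 4) := by
    rw [norm_exp]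
    apply Real.exp_le_exp.2
    have e : (I * (u : ℂ) * ell v).re = -(Real.pi / 4 * u) := by
      unfold ell
      simp
      ring
    rw [e]
    have := neg_abs_le u
    have := Real.pi_pos
    nlinarith
  by_cases hsm : u ^ 2 ≤ v
  · have hu : |u| ≤ v / 2 := by
      have h1 : |u| ^ 2 ≤ (v / 2) ^ 2 := by
        rw [sq_abs]
        nlinarith
      exact le_of_sq_le_sq h1 (by linarith)
    obtain ⟨X, hX⟩ : ∃ X : ℝ, X = (1 + |u|) ^ 2 / v := ⟨_, rfl⟩
    have hX0 : 0 ≤ X := by rw [hX]; positivity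
    have hX4 : X ≤ 4 := by
      rw [hX, div_le_iff₀ hv0]
      have : |u| ^ 2 = u ^ 2 := sq_abs u
      nlinarith [sq_nonneg (1 - |u|)]
    have hlin : ∀ w : ℂ, v ≤ ‖w‖ → ‖(1 + I * (u : ℂ) / w) - 1‖ ≤ 1 * X := by
      intro w hw
      have e : (1 + I * (u : ℂ) / w) - 1 = I * u / w := by ring
      rw [e, norm_div, norm_mul, norm_I, one_mul, norm_real, Real.norm_eq_abs, one_mul, hX]
      apply div_le_div₀ (by positivity) (by nlinarith) hv0 hw
    have n2 : v ≤ ‖(2 : ℂ) + I * v‖ := by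
      refine le_trans (le_of_eq ?_) (abs_im_le_norm _)
      simp [abs_of_pos hv0]
    have n1 : v ≤ ‖(1 : ℂ) + I * v‖ := by
      refine le_trans (le_of_eq ?_) (abs_im_le_norm _)
      simp [abs_of_pos hv0]
    have q1 := mul_close hX0 hX4 zero_le_one zero_le_one (hlin _ n2) (hlin _ n1)
    have hS : ‖sA (1 + I * (((v + u) / 2 : ℝ) : ℂ)) / sA (1 + I * ((v / 2 : ℝ) : ℂ)) - 1‖ ≤ 8 * X := by
      have hu1 := neg_abs_le u
      refine (sA_ratio hv (by simp) (by simp) ?_ ?_).trans ?_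
      · simp
        linarith
      · simp
        linarith
      · rw [hX]
        have : 8 * ((1 + |u|) ^ 2 / v) = 8 * (1 + |u|) ^ 2 / v := by ring
        rw [this]
        apply div_le_div_of_nonneg_right _ hv0.le
        nlinarith
    have hE := exp_close hX4 (e := ((((1 + I * (((v + u) / 2 : ℝ) : ℂ)) - 1 / 2) * log (1 + I * (((v + u) / 2 : ℝ) : ℂ)) -
      (1 + I * (((v + u) / 2 : ℝ) : ℂ))) -
      (((1 + I * ((v / 2 : ℝ) : ℂ)) - 1 / 2) * log (1 + I * ((v / 2 : ℝ) : ℂ)) - (1 + I * ((v / 2 : ℝ) : ℂ)))) -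
      I * (u / 2) * log (I * ((v / 2 : ℝ) : ℂ))) (by
        refine (h_close hv hu).trans (le_of_eq ?_)
        rw [hX]
        ring)
    have q2 := mul_close hX0 hX4 (by norm_num) (by positivity) hS hE
    have q3 := mul_close hX0 hX4 (by norm_num) (by positivity) q1 q2
    rw [← hK] at q3
    rw [gam_ratio hv hu]
    have e : ∀ a b : ℂ, a * b - a = a * (b - 1) := by intro a b; ring
    rw [e, norm_mul]
    calc _ ≤ Real.exp (Real.pi * |u| / 4) * (K * X) := mul_le_mul hmain q3 (norm_nonneg _) hexpu.le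
      _ = K / v * (1 + |u|) ^ 2 * Real.exp (Real.pi * |u| / 4) := by rw [hX]; ring
      _ ≤ (K + 3) / v * (1 + |u|) ^ 5 * Real.exp (Real.pi * |u| / 4) := by
        apply mul_le_mul_of_nonneg_right _ hexpu.le
        apply mul_le_mul _ _ (by positivity) (by positivity)
        · apply div_le_div_of_nonneg_right _ hv0.le
          linarith
        · exact pow_le_pow_right₀ (by linarith) (by norm_num)
  · push Not at hsm
    have hR : ‖gam (2 + I * ((v + u : ℝ) : ℂ)) / gam (2 + I * (v : ℂ))‖ ≤ 2 * (1 + |u|) ^ 3 * Real.exp (Real.pi * |u| / 4) := by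
      rw [norm_div, div_le_iff₀ (norm_pos_iff.2 (gam_ne v))]
      exact ratio_norm (by linarith) u
    refine (norm_sub_le _ _).trans ?_
    have h1 : v ≤ (1 + |u|) ^ 2 := by
      have : |u| ^ 2 = u ^ 2 := sq_abs u
      nlinarith
    have h2 : (1 + |u|) ^ 3 ≤ 1 / v * (1 + |u|) ^ 5 := by
      rw [div_mul_eq_mul_div, le_div_iff₀ hv0, one_mul]
      calc (1 + |u|) ^ 3 * v ≤ (1 + |u|) ^ 3 * (1 + |u|) ^ 2 := mul_le_mul_of_nonneg_left h1 (by positivity)
        _ = _ := by ring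
    have h3 : (1 : ℝ) ≤ (1 + |u|) ^ 3 := one_le_pow₀ (by linarith)
    calc _ ≤ 2 * (1 + |u|) ^ 3 * Real.exp (Real.pi * |u| / 4) + Real.exp (Real.pi * |u| / 4) := add_le_add hR hmain
      _ ≤ 3 * (1 + |u|) ^ 3 * Real.exp (Real.pi * |u| / 4) := by nlinarith
      _ ≤ 3 * (1 / v * (1 + |u|) ^ 5) * Real.exp (Real.pi * |u| / 4) := by
        apply mul_le_mul_of_nonneg_right _ hexpu.le
        linarith
      _ ≤ (K + 3) / v * (1 + |u|) ^ 5 * Real.exp (Real.pi * |u| / 4) := by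
        apply mul_le_mul_of_nonneg_right _ hexpu.le
        have : (K + 3) / v * (1 + |u|) ^ 5 = K * (1 / v * (1 + |u|) ^ 5) + 3 * (1 / v * (1 + |u|) ^ 5) := by ring
        rw [this]
        have : 0 ≤ K * (1 / v * (1 + |u|) ^ 5) := by positivity
        linarith

theorem t_GAM : S_LOC → S_GAM := by
  rintro ⟨C, V₀, hC, hV, h⟩
  refine ⟨1 + C, V₀, by linarith, hV, fun v v' hv _ => ⟨(h v hv).1, ?_⟩⟩
  have h1 := (h v hv).2 (v' - v)
  have hg := (h v hv).1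
  rw [show v + (v' - v) = v' by ring] at h1
  have hv1 : 1 ≤ v := hV.trans hv
  obtain ⟨u, hu⟩ : ∃ u : ℝ, u = v' - v := ⟨_, rfl⟩
  rw [← hu] at h1 ⊢
  have hau := abs_nonneg u
  have hexpu : 0 < Real.exp (Real.pi * |u| / 4) := Real.exp_pos _
  have hmain : ‖cexp (I * u * ell v)‖ ≤ Real.exp (Real.pi * |u| / 4) := by
    rw [norm_exp]
    apply Real.exp_le_exp.2
    have e : (I * (u : ℂ) * ell v).re = -(Real.pi / 4 * u) := by
      unfold ell
      simp
      ring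
    rw [e]
    have := neg_abs_le u
    have := Real.pi_pos
    nlinarith
  have h2 : ‖gam (2 + I * (v' : ℂ)) / gam (2 + I * (v : ℂ))‖ ≤ (1 + C) * (1 + |u|) ^ 5 * Real.exp (Real.pi * |u| / 4) := by
    have e : gam (2 + I * (v' : ℂ)) / gam (2 + I * (v : ℂ)) =
        (gam (2 + I * (v' : ℂ)) / gam (2 + I * (v : ℂ)) - cexp (I * u * ell v)) + cexp (I * u * ell v) := by ring
    rw [e]
    refine (norm_add_le _ _).trans ?_
    have h3 : C / v * (1 + |u|) ^ 5 * Real.exp (Real.pi * |u| / 4) ≤ C * (1 + |u|) ^ 5 * Real.exp (Real.pi * |u| / 4) := by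
      apply mul_le_mul_of_nonneg_right _ hexpu.le
      apply mul_le_mul_of_nonneg_right _ (by positivity)
      exact div_le_self hC.le hv1
    have h4 : (1 : ℝ) ≤ (1 + |u|) ^ 5 := one_le_pow₀ (by linarith)
    nlinarith
  rw [norm_div, div_le_iff₀ (norm_pos_iff.2 hg)] at h2
  exact h2

end Pool.Agent.J4H3.NG
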